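import Pool.Agent.Lib_helper47.CapArea

set_option autoImplicit false

open MeasureTheory Metric Set Pool.Agent.Kiss47
open scoped Pointwise

namespace InsCap

theorem cone_eq (A : Set (sphere (0 : E3) 1)) :
    {x : E3 | ‖x‖⁻¹ • x ∈ (Subtype.val '' A : Set E3)} ∩ ball 0 1 =
      Ioo (0 : ℝ) 1 • (Subtype.val '' A : Set E3) := by
  ext x
  constructor
  · rintro ⟨⟨a, ha, hax⟩, hx⟩
    have hx0 : x ≠ 0 := by
      rintro rfl
      have h1 : ‖(a : E3)‖ = 1 := mem_sphere_zero_iff_norm.1 a.2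
      rw [hax] at h1
      simp at h1
    have hn : 0 < ‖x‖ := norm_pos_iff.2 hx0
    refine Set.mem_smul.2 ⟨‖x‖, ⟨hn, by simpa using hx⟩, ‖x‖⁻¹ • x, ⟨a, ha, hax⟩, ?_⟩
    rw [smul_smul, mul_inv_cancel₀ hn.ne', one_smul]
  · intro hx
    obtain ⟨t, ht, y, ⟨a, ha, rfl⟩, rfl⟩ := Set.mem_smul.1 hx
    have h1 : ‖(a : E3)‖ = 1 := mem_sphere_zero_iff_norm.1 a.2
    have h2 : ‖t • (a : E3)‖ = t := by
      rw [norm_smul, h1, mul_one, Real.norm_of_nonneg ht.1.le]
    refine ⟨?_, ?_⟩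
    · show ‖t • (a : E3)‖⁻¹ • t • (a : E3) ∈ (Subtype.val '' A : Set E3)
      rw [h2, smul_smul, inv_mul_cancel₀ ht.1.ne', one_smul]
      exact ⟨a, ha, rfl⟩
    · rw [mem_ball_zero_iff, h2]
      exact ht.2

theorem measurable_image {A : Set (sphere (0 : E3) 1)} (hA : MeasurableSet A) :
    MeasurableSet (Subtype.val '' A : Set E3) :=
  isClosed_sphere.measurableSet.subtype_image hA

/-- The surface measure of Mathlib is three times the cone measure. -/
theorem toSphere_eq {A : Set (sphere (0 : E3) 1)} (hA : MeasurableSet A) :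
    (volume : Measure E3).toSphere A = 3 * sig (Subtype.val '' A : Set E3) := by
  rw [Measure.toSphere_apply' _ hA, sig_apply _ (measurable_image hA), cone_eq,
    finrank_euclideanSpace_fin]
  rfl

theorem toSphere_preimage {B : Set E3} (hB : MeasurableSet B) (hsub : ∀ x ∈ B, ‖x‖ = 1) :
    (volume : Measure E3).toSphere ((Subtype.val : sphere (0 : E3) 1 → E3) ⁻¹' B) =
      3 * sig B := by
  rw [toSphere_eq (measurable_subtype_coe hB), Subtype.image_preimage_coe]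
  congr 2
  ext x
  constructor
  · exact fun h => h.2
  · exact fun h => ⟨mem_sphere_zero_iff_norm.2 (hsub x h), h⟩

theorem subset_cone : {x : E3 | x 2 ∈ Ioc 0 (Real.sqrt 3 / 2) ∧ x 0 ^ 2 + x 1 ^ 2 < x 2 ^ 2 / 3}
      ∪ {x : E3 | x 2 ∈ Ioc (Real.sqrt 3 / 2) 1 ∧ x 0 ^ 2 + x 1 ^ 2 < 1 - x 2 ^ 2} ⊆
    {x : E3 | ‖x‖⁻¹ • x ∈ cap pole (Real.pi / 6)} ∩ ball 0 1 := by
  have hs3 : Real.sqrt 3 ^ 2 = 3 := Real.sq_sqrt (by norm_num)
  have hs0 : 0 < Real.sqrt 3 := by positivity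
  intro x hx
  have hnsq : ‖x‖ ^ 2 = x 0 ^ 2 + x 1 ^ 2 + x 2 ^ 2 := by
    rw [EuclideanSpace.norm_sq_eq, Fin.sum_univ_three]
    simp only [Real.norm_eq_abs, sq_abs]
  have hkey : 0 < x 2 ∧ ‖x‖ ^ 2 < 1 ∧ 3 / 4 * ‖x‖ ^ 2 < x 2 ^ 2 := by
    rcases hx with ⟨⟨h1, h2⟩, h3⟩ | ⟨⟨h1, h2⟩, h3⟩
    · have h4 : x 2 ^ 2 ≤ 3 / 4 := by
        calc x 2 ^ 2 ≤ (Real.sqrt 3 / 2) ^ 2 := pow_le_pow_left₀ h1.le h2 2
          _ = 3 / 4 := by rw [div_pow, hs3]; norm_num
      refine ⟨h1, ?_, ?_⟩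
      · rw [hnsq]; nlinarith
      · rw [hnsq]; nlinarith
    · have h4 : 3 / 4 < x 2 ^ 2 := by
        calc 3 / 4 = (Real.sqrt 3 / 2) ^ 2 := by rw [div_pow, hs3]; norm_num
          _ < x 2 ^ 2 := pow_lt_pow_left₀ h1 (by positivity) (by norm_num)
      have h5 : 0 < x 2 := lt_trans (by positivity) h1
      refine ⟨h5, ?_, ?_⟩
      · rw [hnsq]; linarith
      · rw [hnsq]; nlinarith
  obtain ⟨h1, h2, h3⟩ := hkey
  have hx0 : x ≠ 0 := by
    rintro rfl
    simp at h1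
  have hn : 0 < ‖x‖ := norm_pos_iff.mpr hx0
  have hlt : ‖x‖ < 1 := by
    by_contra hcon
    push Not at hcon
    nlinarith
  have hlt2 : Real.sqrt 3 / 2 * ‖x‖ < x 2 := by
    have h4 : (Real.sqrt 3 / 2 * ‖x‖) ^ 2 < x 2 ^ 2 := by
      rw [mul_pow, div_pow, hs3]
      linarith
    exact lt_of_pow_lt_pow_left₀ 2 h1.le h4
  refine ⟨⟨?_, ?_⟩, by simpa using hlt⟩
  · rw [norm_smul, norm_inv, norm_norm, inv_mul_cancel₀ hn.ne']
  · rw [InnerProductGeometry.angle_smul_right_of_pos _ _ (inv_pos.mpr hn)]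
    have hc : Real.cos (InnerProductGeometry.angle pole x) = x 2 / ‖x‖ := by
      rw [InnerProductGeometry.cos_angle, pole_norm, one_mul]
      congr 1
      simp [pole, EuclideanSpace.inner_single_left]
    by_contra hcon
    push Not at hcon
    have h5 := Real.cos_le_cos_of_nonneg_of_le_pi (by positivity)
      (InnerProductGeometry.angle_le_pi pole x) hcon
    rw [hc, Real.cos_pi_div_six, div_le_iff₀ hn] at h5
    linarith

theorem sig_cap_ge : ENNReal.ofReal ((1 - Real.sqrt 3 / 2) / 2) * sig Set.univ ≤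
    sig (cap pole (Real.pi / 6)) := by
  rw [sig_univ, EuclideanSpace.volume_ball_fin_three, sig_apply _ (measurableSet_cap _ _)]
  refine le_trans ?_ (measure_mono subset_cone)
  have hs3 : Real.sqrt 3 ^ 2 = 3 := Real.sq_sqrt (by norm_num)
  have hs0 : 0 < Real.sqrt 3 := by positivity
  have hs2 : Real.sqrt 3 ≤ 2 := by nlinarith
  have hdisj : Disjoint
      {x : E3 | x 2 ∈ Ioc 0 (Real.sqrt 3 / 2) ∧ x 0 ^ 2 + x 1 ^ 2 < x 2 ^ 2 / 3}
      {x : E3 | x 2 ∈ Ioc (Real.sqrt 3 / 2) 1 ∧ x 0 ^ 2 + x 1 ^ 2 < 1 - x 2 ^ 2} := by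
    rw [Set.disjoint_left]
    rintro x ⟨⟨_, h1⟩, _⟩ ⟨⟨h2, _⟩, _⟩
    exact absurd h1 (not_le.2 h2)
  have hmeas : MeasurableSet
      {x : E3 | x 2 ∈ Ioc (Real.sqrt 3 / 2) 1 ∧ x 0 ^ 2 + x 1 ^ 2 < 1 - x 2 ^ 2} := by
    refine MeasurableSet.inter ?_ ?_
    · have h2 : Measurable fun x : E3 => x 2 := by fun_prop
      exact h2 measurableSet_Ioc
    · have h3 : Measurable fun x : E3 => x 0 ^ 2 + x 1 ^ 2 := by fun_prop
      have h4 : Measurable fun x : E3 => 1 - x 2 ^ 2 := by fun_prop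
      exact measurableSet_lt h3 h4
  rw [measure_union hdisj hmeas]
  rw [slab_volume (Ioc 0 (Real.sqrt 3 / 2)) measurableSet_Ioc (fun z => z ^ 2 / 3) (by fun_prop)
    (fun z _ => by positivity)]
  rw [slab_volume (Ioc (Real.sqrt 3 / 2) 1) measurableSet_Ioc (fun z => 1 - z ^ 2) (by fun_prop)
    (fun z hz => by nlinarith [hz.1, hz.2])]
  rw [lint_pow 0 (Real.sqrt 3 / 2) (by positivity) (fun z => Real.pi * (z ^ 2 / 3))
    (fun z => Real.pi * (z ^ 3 / 9)) (by fun_prop) ?_ (fun z _ => by positivity)]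
  rw [lint_pow (Real.sqrt 3 / 2) 1 (by linarith) (fun z => Real.pi * (1 - z ^ 2))
    (fun z => Real.pi * (z - z ^ 3 / 3)) (by fun_prop) ?_ ?_]
  · rw [← ENNReal.ofReal_add, ENNReal.ofReal_one]
    simp only [one_pow, one_mul]
    rw [← ENNReal.ofReal_mul]
    · apply ENNReal.ofReal_le_ofReal
      have h3 : Real.sqrt 3 ^ 3 = 3 * Real.sqrt 3 := by rw [pow_succ, hs3]
      have : (Real.sqrt 3 / 2) ^ 3 = 3 * Real.sqrt 3 / 8 := by rw [div_pow, h3]; norm_num
      rw [this]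
      apply le_of_eq
      ring
    · linarith
    · rw [zero_pow (by norm_num)]
      have : 0 ≤ Real.pi * ((Real.sqrt 3 / 2) ^ 3 / 9) := by positivity
      linarith
    · have h3 : Real.sqrt 3 ^ 3 = 3 * Real.sqrt 3 := by rw [pow_succ, hs3]
      have : (Real.sqrt 3 / 2) ^ 3 = 3 * Real.sqrt 3 / 8 := by rw [div_pow, h3]; norm_num
      rw [this, ← mul_sub]
      apply mul_nonneg Real.pi_pos.le
      nlinarith
  · intro x
    have h := (((hasDerivAt_id x).sub ((hasDerivAt_pow 3 x).div_const 3)).const_mul Real.pi)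
    refine HasDerivAt.congr_deriv h ?_
    push_cast; ring
  · intro z hz
    apply mul_nonneg Real.pi_pos.le
    nlinarith [hz.1, hz.2]
  · intro x
    have h := (((hasDerivAt_pow 3 x).div_const 9).const_mul Real.pi)
    refine HasDerivAt.congr_deriv h ?_
    push_cast; ring

theorem sig_cap (u : E3) (hu : ‖u‖ = 1) :
    sig (cap u (Real.pi / 6)) = ENNReal.ofReal ((1 - Real.sqrt 3 / 2) / 2) * sig Set.univ := by
  have hrot : sig (cap u (Real.pi / 6)) = sig (cap pole (Real.pi / 6)) := by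
    obtain ⟨g, hg⟩ := exists_O3 pole u pole_norm hu
    rw [← sig_inv.inv (toIso g) _ (measurableSet_cap u _)]
    congr 1
    ext x
    simp only [cap, Set.mem_preimage, Set.mem_ofPred_eq, LinearIsometryEquiv.norm_map]
    have : InnerProductGeometry.angle u (toIso g x) = InnerProductGeometry.angle pole x := by
      rw [← hg, ← toIso_apply]
      exact LinearIsometry.angle_map (toIso g).toLinearIsometry pole x
    rw [this]
  rw [hrot]
  exact le_antisymm sig_cap_le sig_cap_ge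

theorem cos_angle_unit (u x : E3) (hu : ‖u‖ = 1) (hx : ‖x‖ = 1) :
    Real.cos (InnerProductGeometry.angle u x) = inner ℝ u x := by
  rw [InnerProductGeometry.cos_angle, hu, hx]; simp

theorem mem_cap_six_iff (u x : E3) (hu : ‖u‖ = 1) :
    x ∈ cap u (Real.pi / 6) ↔ ‖x‖ = 1 ∧ Real.sqrt 3 / 2 < inner ℝ u x := by
  constructor
  · rintro ⟨hx, h⟩
    refine ⟨hx, ?_⟩
    rw [← cos_angle_unit u x hu hx, ← Real.cos_pi_div_six]
    exact Real.cos_lt_cos_of_nonneg_of_le_pi (InnerProductGeometry.angle_nonneg _ _)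
      (by linarith [Real.pi_pos]) h
  · rintro ⟨hx, h⟩
    refine ⟨hx, ?_⟩
    rw [← cos_angle_unit u x hu hx, ← Real.cos_pi_div_six] at h
    by_contra hcon
    push Not at hcon
    have := Real.cos_le_cos_of_nonneg_of_le_pi (by positivity)
      (InnerProductGeometry.angle_le_pi u x) hcon
    linarith

/-- Disjointness of the small caps means separation by 60 degrees. -/
theorem sep_of_disjoint (u v : E3) (hu : ‖u‖ = 1) (hv : ‖v‖ = 1)
    (hd : Disjoint (cap u (Real.pi / 6)) (cap v (Real.pi / 6))) : inner ℝ u v ≤ (1 / 2 : ℝ) := by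
  by_contra hcon
  push Not at hcon
  have huv : ‖u + v‖ ^ 2 = 2 + 2 * inner ℝ u v := by
    rw [norm_add_sq_real, hu, hv]; ring
  have hpos : 0 < ‖u + v‖ := by
    by_contra h
    have h0 : ‖u + v‖ = 0 := le_antisymm (not_lt.mp h) (norm_nonneg _)
    rw [h0] at huv
    nlinarith
  have hm : ‖(‖u + v‖⁻¹ • (u + v) : E3)‖ = 1 := by
    rw [norm_smul, norm_inv, norm_norm, inv_mul_cancel₀ hpos.ne']
  have hs3 : Real.sqrt 3 ^ 2 = 3 := Real.sq_sqrt (by norm_num)
  have hkey : Real.sqrt 3 / 2 < ‖u + v‖⁻¹ * (1 + inner ℝ u v) := by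
    rw [inv_mul_eq_div, lt_div_iff₀ hpos]
    have h1 : 1 + inner ℝ u v = ‖u + v‖ ^ 2 / 2 := by rw [huv]; ring
    rw [h1]
    have h3 : Real.sqrt 3 < ‖u + v‖ := by
      rw [Real.sqrt_lt' hpos, huv]; linarith
    nlinarith
  have m1 : ‖u + v‖⁻¹ • (u + v) ∈ cap u (Real.pi / 6) := by
    rw [mem_cap_six_iff u _ hu]
    refine ⟨hm, ?_⟩
    rw [inner_smul_right, inner_add_right, real_inner_self_eq_norm_sq, hu]
    norm_num
    exact hkey
  have m2 : ‖u + v‖⁻¹ • (u + v) ∈ cap v (Real.pi / 6) := by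
    rw [mem_cap_six_iff v _ hv]
    refine ⟨hm, ?_⟩
    rw [inner_smul_right, inner_add_right, real_inner_self_eq_norm_sq, hv, real_inner_comm u v]
    norm_num
    rw [add_comm (inner ℝ u v) 1]
    exact hkey
  exact Set.disjoint_left.mp hd m1 m2

/-- The inequality and the case of equality, for the cone measure. -/
theorem main_sig (T : Finset E3) (hT : ∀ u ∈ T, ‖u‖ = 1) (hne : T.Nonempty)
    (hd : ∀ u ∈ T, ∀ v ∈ T, u ≠ v → Disjoint (cap u (Real.pi / 6)) (cap v (Real.pi / 6))) :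
    0 < (sig (⋃ u ∈ T, cap u (Real.pi / 3))).toReal ∧
    (∑ u ∈ T, (sig (cap u (Real.pi / 6))).toReal)
      / (sig (⋃ u ∈ T, cap u (Real.pi / 3))).toReal ≤ 6 * (1 - Real.sqrt 3 / 2) ∧
    (T.card = 12 → (∑ u ∈ T, (sig (cap u (Real.pi / 6))).toReal)
      / (sig (⋃ u ∈ T, cap u (Real.pi / 3))).toReal = 6 * (1 - Real.sqrt 3 / 2)) := by
  have hsep : ∀ x ∈ T, ∀ y ∈ T, x ≠ y → inner ℝ x y ≤ (1 / 2 : ℝ) := by
    intro x hx y hy hne
    exact sep_of_disjoint x y (hT x hx) (hT y hy) (hd x hx y hy hne)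
  have hs3 : Real.sqrt 3 ^ 2 = 3 := Real.sq_sqrt (by norm_num)
  have hs0 : 0 < Real.sqrt 3 := by positivity
  have hs2 : Real.sqrt 3 < 2 := by nlinarith
  have h1 := union_lower sig sig_inv T hT hsep
  set m : ℝ := (sig Set.univ).toReal with hm
  set S : ℝ := (sig (⋃ u ∈ T, cap u (Real.pi / 3))).toReal with hS
  have hm0 : 0 < m := by
    refine ENNReal.toReal_pos ?_ (measure_ne_top _ _)
    rw [sig_univ]
    exact (measure_ball_pos volume (0 : E3) one_pos).ne'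
  have h1' : (T.card : ℝ) * m ≤ 12 * S := by
    have h' := ENNReal.toReal_mono (ENNReal.mul_ne_top (by norm_num) (measure_ne_top sig _)) h1
    rw [ENNReal.toReal_mul, ENNReal.toReal_mul] at h'
    simpa using h'
  have hSm : S ≤ m := ENNReal.toReal_mono (measure_ne_top _ _) (measure_mono (subset_univ _))
  have hcard : (1 : ℝ) ≤ T.card := by
    have := hne.card_pos
    exact_mod_cast this
  have hS0 : 0 < S := by nlinarith
  have hsum : ∑ u ∈ T, (sig (cap u (Real.pi / 6))).toReal =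
      (T.card : ℝ) * ((1 - Real.sqrt 3 / 2) / 2 * m) := by
    have h2 : ∀ u ∈ T, (sig (cap u (Real.pi / 6))).toReal = (1 - Real.sqrt 3 / 2) / 2 * m := by
      intro u hu
      rw [sig_cap u (hT u hu), ENNReal.toReal_mul, ENNReal.toReal_ofReal (by linarith)]
    rw [Finset.sum_congr rfl h2, Finset.sum_const, nsmul_eq_mul]
  refine ⟨hS0, ?_, fun h12 => ?_⟩
  · rw [hsum, div_le_iff₀ hS0]
    have h3 : (1 - Real.sqrt 3 / 2) / 2 * ((T.card : ℝ) * m) ≤
        (1 - Real.sqrt 3 / 2) / 2 * (12 * S) :=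
      mul_le_mul_of_nonneg_left h1' (by linarith)
    linarith
  · rw [h12] at h1' hsum
    push_cast at h1' hsum
    have h4 : S = m := le_antisymm hSm (by linarith)
    rw [hsum, h4]
    field_simp
    ring

theorem sig_univ_eq : sig Set.univ = ENNReal.ofReal (4 / 3 * Real.pi) := by
  rw [sig_univ, EuclideanSpace.volume_ball_fin_three, ENNReal.ofReal_one]
  rw [one_pow, one_mul]
  congr 1
  ring

end InsCap
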