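import Mathlib

set_option autoImplicit false

namespace InsPsp

open scoped NumberTheorySymbols

/-- Criterion for being an Euler pseudoprime with symbol `1`. -/
theorem psp_of {n a t : ℕ} (ha : 2 ≤ a) (u : ℤ) (hu : 1 < u) (hun : u < n) (hdvd : u ∣ (n : ℤ))
    (h1 : (n : ℤ) ∣ (a : ℤ) ^ t - 1) (h2 : (2 * t : ℤ) ∣ (n : ℤ) - 1)
    (h3 : (4 * a : ℤ) ∣ (n : ℤ) - 1) :
    (∃ b c : ℕ, 1 < b ∧ 1 < c ∧ n = b * c) ∧ Odd n ∧ Nat.Coprime a n ∧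
      (a : ℤ) ^ ((n - 1) / 2) ≡ 1 [ZMOD n] ∧ J((a : ℤ) | n) = 1 := by
  have hn : 1 < n := by
    have : (1 : ℤ) < n := hu.trans hun
    exact_mod_cast this
  have hcast : ((n - 1 : ℕ) : ℤ) = (n : ℤ) - 1 := by push_cast [hn.le]; rfl
  have h2' : 2 * t ∣ n - 1 := by
    rw [← Int.natCast_dvd_natCast, hcast]
    push_cast
    exact h2
  have h3' : 4 * a ∣ n - 1 := by
    rw [← Int.natCast_dvd_natCast, hcast]
    push_cast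
    exact h3
  obtain ⟨e, he⟩ := h3'
  have hne : n = 1 + 4 * a * e := by omega
  have hodd : Odd n := ⟨2 * a * e, by rw [hne]; ring⟩
  refine ⟨?_, hodd, ?_, ?_, ?_⟩
  · obtain ⟨v, hv⟩ := hdvd
    have hv0 : 0 < v := by
      by_contra h
      have : u * v ≤ 0 := mul_nonpos_of_nonneg_of_nonpos (by omega) (by omega)
      omega
    have hv1 : v ≠ 1 := by
      rintro rfl
      omega
    refine ⟨u.toNat, v.toNat, by omega, by omega, ?_⟩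
    have h4 : ((u.toNat * v.toNat : ℕ) : ℤ) = u * v := by
      push_cast
      rw [Int.toNat_of_nonneg (by omega), Int.toNat_of_nonneg hv0.le]
    have h5 : ((u.toNat * v.toNat : ℕ) : ℤ) = (n : ℤ) := by rw [h4, hv]
    exact_mod_cast h5.symm
  · rw [hne, mul_comm 4 a, mul_assoc]
    simp
  · obtain ⟨c, hc⟩ := h2'
    have h4 : (n - 1) / 2 = t * c := by
      rw [hc, mul_assoc]
      simp
    rw [h4, pow_mul]
    have h5 : (a : ℤ) ^ t ≡ 1 [ZMOD n] := (Int.modEq_iff_dvd.2 (by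
      have := h1
      rw [← neg_sub, dvd_neg]
      exact this))
    simpa using h5.pow c
  · rw [jacobiSym.mod_right (a : ℤ) hodd]
    have h4 : n % (4 * (a : ℤ).natAbs) = 1 := by
      rw [Int.natAbs_natCast, hne, Nat.add_mul_mod_self_left]
      exact Nat.mod_eq_of_lt (by omega)
    rw [h4, jacobiSym.one_right]

/-- The arithmetic core: if `x = a ^ k = y ^ 7`, `y ≥ 2` and `120 k ∣ x (x - 1)`, then
`Φ₁₅(x), Φ₂₄(x), Φ₃₀(x)` is an arithmetic progression of three Euler pseudoprimes to base `a`. -/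
theorem core {a k y : ℕ} (ha : 2 ≤ a) (hev : Even a) (hk : 3 ≤ k) (hy : 2 ≤ y)
    (hxy : a ^ k = y ^ 7)
    (hdvd : (120 * k : ℤ) ∣ (a : ℤ) ^ k * ((a : ℤ) ^ k - 1)) :
    ∃ n d : ℕ, a ^ k < n ∧ 0 < d ∧ ∀ m ∈ ({n, n + d, n + 2 * d} : Finset ℕ),
      (∃ b c : ℕ, 1 < b ∧ 1 < c ∧ m = b * c) ∧ Odd m ∧ Nat.Coprime a m ∧
      (a : ℤ) ^ ((m - 1) / 2) ≡ 1 [ZMOD m] ∧ J((a : ℤ) | m) = 1 := by
  obtain ⟨x, hx⟩ : ∃ x : ℤ, x = (a : ℤ) ^ k := ⟨_, rfl⟩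
  obtain ⟨z, hz⟩ : ∃ z : ℤ, z = (y : ℤ) := ⟨_, rfl⟩
  have hxz : x = z ^ 7 := by rw [hx, hz]; exact_mod_cast hxy
  have hz2 : 2 ≤ z := by rw [hz]; exact_mod_cast hy
  obtain ⟨s, hs⟩ : ∃ s : ℤ, s = z - 2 := ⟨_, rfl⟩
  have hs0 : 0 ≤ s := by omega
  have hzs : z = s + 2 := by omega
  have hz14 : 2 * z ^ 8 ≤ x ^ 2 := by
    have h1 : (1 : ℤ) ≤ z := by omega
    have h2 : (1 : ℤ) ≤ z ^ 5 := one_le_pow₀ h1
    have h3 : (0 : ℤ) ≤ z ^ 8 := by positivity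
    have h4 : x ^ 2 = z ^ 8 * (z * z ^ 5) := by rw [hxz]; ring
    have h5 : (2 : ℤ) ≤ z * z ^ 5 := by nlinarith
    rw [h4]; nlinarith
  have hx2 : 2 ≤ x := by
    rw [hxz]
    calc (2 : ℤ) ≤ z := hz2
      _ ≤ z ^ 7 := le_self_pow₀ (by omega) (by norm_num)
  obtain ⟨w, hw⟩ : ∃ w : ℤ, w = x - 2 := ⟨_, rfl⟩
  have hw0 : 0 ≤ w := by omega
  have hxw : x = w + 2 := by omega
  obtain ⟨b, hb⟩ := hev.two_dvd
  -- `4 a` divides `x`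
  have h4a : (4 * a : ℤ) ∣ x := by
    have h1 : (a : ℤ) ^ 3 ∣ x := by
      rw [hx]
      exact pow_dvd_pow _ hk
    refine Dvd.dvd.trans ?_ h1
    refine ⟨(b : ℤ) ^ 2, ?_⟩
    rw [hb]
    push_cast
    ring
  have h2x : (2 : ℤ) ∣ x := Dvd.dvd.trans ⟨2 * a, by ring⟩ h4a
  rw [← hx] at hdvd
  have key : ∀ e : ℕ, (a : ℤ) ^ (e * k) = x ^ e := fun e => by
    rw [hx, mul_comm, pow_mul]
  -- sizes
  have b1 : x ^ 2 < x ^ 8 - x ^ 7 + x ^ 5 - x ^ 4 + x ^ 3 - x + 1 := by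
    have : 0 < x ^ 8 - x ^ 7 + x ^ 5 - x ^ 4 + x ^ 3 - x + 1 - x ^ 2 := by
      rw [hxw]; ring_nf; positivity
    omega
  have b2 : 0 < x ^ 7 - x ^ 5 - x ^ 3 + x := by
    rw [hxw]; ring_nf; positivity
  have u1 : 1 < z ^ 8 - z ^ 7 + z ^ 5 - z ^ 4 + z ^ 3 - z + 1 := by
    have : 0 < z ^ 8 - z ^ 7 + z ^ 5 - z ^ 4 + z ^ 3 - z + 1 - 1 := by
      rw [hzs]; ring_nf; positivity
    omega
  have u1' : z ^ 8 - z ^ 7 + z ^ 5 - z ^ 4 + z ^ 3 - z + 1 ≤ 2 * z ^ 8 := by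
    have : 0 ≤ 2 * z ^ 8 - (z ^ 8 - z ^ 7 + z ^ 5 - z ^ 4 + z ^ 3 - z + 1) := by
      rw [hzs]; ring_nf; positivity
    omega
  have u2 : 1 < z ^ 8 - z ^ 4 + 1 := by
    have : 0 < z ^ 8 - z ^ 4 + 1 - 1 := by
      rw [hzs]; ring_nf; positivity
    omega
  have u2' : z ^ 8 - z ^ 4 + 1 ≤ 2 * z ^ 8 := by
    have : 0 ≤ 2 * z ^ 8 - (z ^ 8 - z ^ 4 + 1) := by
      rw [hzs]; ring_nf; positivity
    omega
  have u3 : 1 < z ^ 8 + z ^ 7 - z ^ 5 - z ^ 4 - z ^ 3 + z + 1 := by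
    have : 0 < z ^ 8 + z ^ 7 - z ^ 5 - z ^ 4 - z ^ 3 + z + 1 - 1 := by
      rw [hzs]; ring_nf; positivity
    omega
  have u3' : z ^ 8 + z ^ 7 - z ^ 5 - z ^ 4 - z ^ 3 + z + 1 ≤ 2 * z ^ 8 := by
    have : 0 ≤ 2 * z ^ 8 - (z ^ 8 + z ^ 7 - z ^ 5 - z ^ 4 - z ^ 3 + z + 1) := by
      rw [hzs]; ring_nf; positivity
    omega
  obtain ⟨n, hn⟩ : ∃ n : ℕ, (n : ℤ) = x ^ 8 - x ^ 7 + x ^ 5 - x ^ 4 + x ^ 3 - x + 1 :=
    ⟨(x ^ 8 - x ^ 7 + x ^ 5 - x ^ 4 + x ^ 3 - x + 1).toNat, Int.toNat_of_nonneg (by nlinarith)⟩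
  obtain ⟨d, hd⟩ : ∃ d : ℕ, (d : ℤ) = x ^ 7 - x ^ 5 - x ^ 3 + x :=
    ⟨(x ^ 7 - x ^ 5 - x ^ 3 + x).toNat, Int.toNat_of_nonneg b2.le⟩
  have hn2 : ((n + d : ℕ) : ℤ) = x ^ 8 - x ^ 4 + 1 := by push_cast; rw [hn, hd]; ring
  have hn3 : ((n + 2 * d : ℕ) : ℤ) = x ^ 8 + x ^ 7 - x ^ 5 - x ^ 4 - x ^ 3 + x + 1 := by
    push_cast; rw [hn, hd]; ring
  refine ⟨n, d, ?_, ?_, ?_⟩
  · have h1 : ((a ^ k : ℕ) : ℤ) < (n : ℤ) := by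
      push_cast; rw [← hx, hn]; nlinarith
    exact_mod_cast h1
  · have h1 : (0 : ℤ) < (d : ℤ) := by rw [hd]; exact b2
    exact_mod_cast h1
  intro m hm
  simp only [Finset.mem_insert, Finset.mem_singleton] at hm
  rcases hm with rfl | rfl | rfl
  · have h1 : (x ^ 8 - x ^ 7 + x ^ 5 - x ^ 4 + x ^ 3 - x + 1) - 1 =
          x * (x - 1) * (x ^ 6 + x ^ 3 + x + 1) := by ring
    refine psp_of ha (t := 15 * k) (z ^ 8 - z ^ 7 + z ^ 5 - z ^ 4 + z ^ 3 - z + 1) u1 ?_ ?_ ?_ ?_ ?_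
    · rw [hn]; linarith
    · rw [hn, hxz]
      exact ⟨z ^ 48 + z ^ 47 + z ^ 46 - z ^ 43 - z ^ 42 - 2 * z ^ 41 - z ^ 40 - z ^ 39 + z ^ 36
        + z ^ 35 + z ^ 34 + z ^ 33 + z ^ 32 + z ^ 31 - z ^ 28 - z ^ 26 - z ^ 24 - z ^ 22 - z ^ 20
        + z ^ 17 + z ^ 16 + z ^ 15 + z ^ 14 + z ^ 13 + z ^ 12 - z ^ 9 - z ^ 8 - 2 * z ^ 7 - z ^ 6
        - z ^ 5 + z ^ 2 + z + 1, by ring⟩
    · rw [key, hn]
      exact ⟨x ^ 7 + x ^ 6 + x ^ 5 - x ^ 2 - x - 1, by ring⟩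
    · rw [hn, h1]
      refine Dvd.dvd.mul_right (Dvd.dvd.trans ?_ hdvd) _
      exact ⟨4, by push_cast; ring⟩
    · rw [hn, h1, mul_assoc]
      exact Dvd.dvd.mul_right h4a _
  · have h1 : (x ^ 8 - x ^ 4 + 1) - 1 =
          x * (x - 1) * (x * (x ^ 5 + x ^ 4 + x ^ 3 + x ^ 2)) := by ring
    refine psp_of ha (t := 24 * k) (z ^ 8 - z ^ 4 + 1) u2 ?_ ?_ ?_ ?_ ?_
    · rw [hn2]; linarith
    · rw [hn2, hxz]
      exact ⟨z ^ 48 + z ^ 44 - z ^ 36 - z ^ 32 + z ^ 24 - z ^ 16 - z ^ 12 + z ^ 4 + 1, by ring⟩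
    · rw [key, hn2]
      exact ⟨x ^ 16 + x ^ 12 - x ^ 4 - 1, by ring⟩
    · rw [hn2, h1]
      have h2 : (2 * ((24 * k : ℕ) : ℤ)) ∣ (120 * k : ℤ) * 2 := ⟨5, by push_cast; ring⟩
      exact h2.trans (mul_dvd_mul hdvd (Dvd.dvd.mul_right h2x _))
    · rw [hn2, h1, mul_assoc]
      exact Dvd.dvd.mul_right h4a _
  · have h1 : (x ^ 8 + x ^ 7 - x ^ 5 - x ^ 4 - x ^ 3 + x + 1) - 1 =
          x * (x - 1) * (x ^ 6 + 2 * x ^ 5 + 2 * x ^ 4 + x ^ 3 - x - 1) := by ring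
    refine psp_of ha (t := 30 * k) (z ^ 8 + z ^ 7 - z ^ 5 - z ^ 4 - z ^ 3 + z + 1) u3 ?_ ?_ ?_ ?_ ?_
    · rw [hn3]; linarith
    · rw [hn3, hxz]
      exact ⟨z ^ 48 - z ^ 47 + z ^ 46 + z ^ 43 - z ^ 42 + 2 * z ^ 41 - z ^ 40 + z ^ 39 + z ^ 36
        - z ^ 35 + z ^ 34 - z ^ 33 + z ^ 32 - z ^ 31 - z ^ 28 - z ^ 26 - z ^ 24 - z ^ 22 - z ^ 20
        - z ^ 17 + z ^ 16 - z ^ 15 + z ^ 14 - z ^ 13 + z ^ 12 + z ^ 9 - z ^ 8 + 2 * z ^ 7 - z ^ 6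
        + z ^ 5 + z ^ 2 - z + 1, by ring⟩
    · rw [key, hn3]
      exact ⟨x ^ 22 - x ^ 21 + x ^ 20 + x ^ 17 - x ^ 16 + x ^ 15 - x ^ 7 + x ^ 6 - x ^ 5 - x ^ 2
        + x - 1, by ring⟩
    · rw [hn3, h1]
      refine Dvd.dvd.mul_right (Dvd.dvd.trans ?_ hdvd) _
      exact ⟨2, by push_cast; ring⟩
    · rw [hn3, h1, mul_assoc]
      exact Dvd.dvd.mul_right h4a _

/-- For a prime `p` and any `a`, if `φ(p ^ (e + 1)) ∣ k` and `e + 1 ≤ k` then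
`p ^ (e + 1) ∣ a ^ k (a ^ k - 1)`. -/
theorem prime_pow_dvd {p a k e : ℕ} (hp : p.Prime) (ha : 1 ≤ a)
    (hk : (p ^ e * (p - 1)) ∣ k) (hek : e + 1 ≤ k) :
    p ^ (e + 1) ∣ a ^ k * (a ^ k - 1) := by
  by_cases h : p ∣ a
  · exact Dvd.dvd.mul_right ((pow_dvd_pow_of_dvd h _).trans (pow_dvd_pow a hek)) _
  · have hcop : Nat.Coprime a (p ^ (e + 1)) :=
      Nat.Coprime.pow_right _ ((Nat.Prime.coprime_iff_not_dvd hp).mpr h).symm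
    have h1 : a ^ Nat.totient (p ^ (e + 1)) ≡ 1 [MOD p ^ (e + 1)] := Nat.ModEq.pow_totient hcop
    rw [Nat.totient_prime_pow_succ hp] at h1
    obtain ⟨c, hc⟩ := hk
    have h2 : a ^ k ≡ 1 [MOD p ^ (e + 1)] := by
      rw [hc, pow_mul]
      simpa using h1.pow c
    have h3 : p ^ (e + 1) ∣ a ^ k - 1 :=
      (Nat.modEq_iff_dvd' (Nat.one_le_pow _ _ ha)).mp h2.symm
    exact Dvd.dvd.mul_left h3 _

theorem dvd_main {a j : ℕ} (ha : 1 ≤ a) (ha2 : Even a) (hj : 1 ≤ j) :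
    120 * 420 ^ j ∣ a ^ (420 ^ j) * (a ^ (420 ^ j) - 1) := by
  have hlt : j < 420 ^ j := Nat.lt_pow_self (by norm_num)
  have h420 : 420 ≤ 420 ^ j := Nat.le_self_pow (by omega) _
  have e : 120 * 420 ^ j = 2 ^ (2 * j + 3) * (3 ^ (j + 1) * (5 ^ (j + 1) * 7 ^ j)) := by
    have : (420 : ℕ) = 2 ^ 2 * 3 * 5 * 7 := by norm_num
    conv_lhs => rw [this, mul_pow, mul_pow, mul_pow, ← pow_mul]
    ring
  have d2 : 2 ^ (2 * j + 3) ∣ a ^ (420 ^ j) * (a ^ (420 ^ j) - 1) := by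
    have h : 2 * j + 3 ≤ 420 ^ j := by
      obtain ⟨i, rfl⟩ : ∃ i, j = i + 1 := ⟨j - 1, by omega⟩
      have : i < 420 ^ i := Nat.lt_pow_self (by norm_num)
      rw [pow_succ]; omega
    exact Dvd.dvd.mul_right ((pow_dvd_pow_of_dvd ha2.two_dvd _).trans (pow_dvd_pow a h)) _
  have d3 : 3 ^ (j + 1) ∣ a ^ (420 ^ j) * (a ^ (420 ^ j) - 1) := by
    refine prime_pow_dvd Nat.prime_three ha ?_ (by omega)
    have : (420 : ℕ) = 3 * 140 := by norm_num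
    rw [this, mul_pow]
    exact Nat.mul_dvd_mul_left _ (Dvd.dvd.pow (by norm_num) (by omega))
  have d5 : 5 ^ (j + 1) ∣ a ^ (420 ^ j) * (a ^ (420 ^ j) - 1) := by
    refine prime_pow_dvd Nat.prime_five ha ?_ (by omega)
    have : (420 : ℕ) = 5 * 84 := by norm_num
    rw [this, mul_pow]
    exact Nat.mul_dvd_mul_left _ (Dvd.dvd.pow (by norm_num) (by omega))
  have d7 : 7 ^ j ∣ a ^ (420 ^ j) * (a ^ (420 ^ j) - 1) := by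
    refine (pow_dvd_pow 7 (Nat.le_succ j)).trans ?_
    refine prime_pow_dvd (by norm_num) ha ?_ (by omega)
    have : (420 : ℕ) = 7 * 60 := by norm_num
    rw [this, mul_pow]
    exact Nat.mul_dvd_mul_left _ (Dvd.dvd.pow (by norm_num) (by omega))
  rw [e]
  have c57 : Nat.Coprime (5 ^ (j + 1)) (7 ^ j) := Nat.Coprime.pow _ _ (by norm_num)
  have c3 : Nat.Coprime (3 ^ (j + 1)) (5 ^ (j + 1) * 7 ^ j) :=
    Nat.Coprime.mul_right (Nat.Coprime.pow _ _ (by norm_num)) (Nat.Coprime.pow _ _ (by norm_num))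
  have c2 : Nat.Coprime (2 ^ (2 * j + 3)) (3 ^ (j + 1) * (5 ^ (j + 1) * 7 ^ j)) :=
    Nat.Coprime.mul_right (Nat.Coprime.pow _ _ (by norm_num))
      (Nat.Coprime.mul_right (Nat.Coprime.pow _ _ (by norm_num))
        (Nat.Coprime.pow _ _ (by norm_num)))
  exact c2.mul_dvd_of_dvd_of_dvd d2 (c3.mul_dvd_of_dvd_of_dvd d3 (c57.mul_dvd_of_dvd_of_dvd d5 d7))

theorem step {a : ℕ} (ha : 2 ≤ a) (ha2 : Even a) (j : ℕ) :
    ∃ n d : ℕ, j < n ∧ 0 < d ∧ ∀ m ∈ ({n, n + d, n + 2 * d} : Finset ℕ),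
      (∃ b c : ℕ, 1 < b ∧ 1 < c ∧ m = b * c) ∧ Odd m ∧ Nat.Coprime a m ∧
      (a : ℤ) ^ ((m - 1) / 2) ≡ 1 [ZMOD m] ∧ J((a : ℤ) | m) = 1 := by
  have hk7 : 420 ^ (j + 1) = (60 * 420 ^ j) * 7 := by rw [pow_succ]; ring
  have hk3 : 3 ≤ 420 ^ (j + 1) := by
    have : 0 < 420 ^ j := by positivity
    rw [pow_succ]; omega
  have hy : 2 ≤ a ^ (60 * 420 ^ j) := by
    calc 2 ≤ a := ha
      _ ≤ a ^ (60 * 420 ^ j) := Nat.le_self_pow (by positivity) _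
  have hd := dvd_main (a := a) (j := j + 1) (by omega) ha2 (by omega)
  have hd' : (120 * ((420 ^ (j + 1) : ℕ) : ℤ)) ∣
      (a : ℤ) ^ (420 ^ (j + 1)) * ((a : ℤ) ^ (420 ^ (j + 1)) - 1) := by
    have h1 : 1 ≤ a ^ (420 ^ (j + 1)) := Nat.one_le_pow _ _ (by omega)
    have h2 := Int.natCast_dvd_natCast.mpr hd
    push_cast [h1] at h2
    exact_mod_cast h2
  obtain ⟨n, d, hn, hd0, h1⟩ := core (a := a) (k := 420 ^ (j + 1))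
    (y := a ^ (60 * 420 ^ j)) ha ha2 hk3 hy (by rw [hk7, pow_mul]) hd'
  refine ⟨n, d, ?_, hd0, h1⟩
  calc j < 420 ^ j := Nat.lt_pow_self (by norm_num)
    _ ≤ 420 ^ (j + 1) := Nat.pow_le_pow_right (by norm_num) (by omega)
    _ ≤ a ^ (420 ^ (j + 1)) := (Nat.lt_pow_self (by omega)).le
    _ ≤ n := hn.le

end InsPsp
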